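import Mathlib
import Pool.Agent.Helper80.Aut.Defs
import Pool.Agent.Helper80.Aut.Correct
import Pool.Agent.Helper80.Aut.Poly

/-!
# Autarkies beyond the lean min-var-degree bound can be found in polynomial time
-/

namespace Pool.Agent.Results.MP_15fd45_lc.AutarkyInPolyTime

open Pool.Agent.Helper80.Aut Pool.Agent.Helper81.CC

/-! ### Codes -/

/-- the translation of literals -/
def toB (x : Literal) : Bool × List Bool := (x.1, Nat.bits x.2)

/-- the translation back -/
noncomputable def fromB (l : Bool × List Bool) : Literal := (l.1, Function.invFun Nat.bits l.2)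

theorem bits_inj : Function.Injective Nat.bits := by
  intro a b h
  apply Nat.digits.injective 2
  rw [Nat.digits_two_eq_bits, Nat.digits_two_eq_bits, h]

theorem toB_inj : Function.Injective toB := by
  rintro ⟨a, v⟩ ⟨b, w⟩ h
  have h1 := Prod.mk.inj h
  exact Prod.ext h1.1 (bits_inj h1.2)

theorem fromB_toB (x : Literal) : fromB (toB x) = x :=
  Prod.ext rfl (Function.leftInverse_invFun bits_inj x.2)

theorem encOf_bool (b : Bool) : encOf Bool b = codeBool b := by cases b <;> rfl

theorem encOf_list {α : Type} [ToData α] (l : List α) :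
    encOf (List α) l = codeList (encOf α) l := by
  induction l with
  | nil => rfl
  | cons a l ih =>
    show true :: ((toData a).enc ++ encOf (List α) l) = _
    rw [ih]
    rfl

theorem codeList_map {α β : Type} (c : α → List Bool) (g : β → α) (l : List β) :
    codeList c (l.map g) = codeList (fun b => c (g b)) l := by
  induction l with
  | nil => rfl
  | cons a l ih => simp only [List.map_cons, codeList, ih]

theorem encOf_toB (x : Literal) : encOf (Bool × List Bool) (toB x) = codeLit x := by
  show true :: (encOf Bool x.1 ++ encOf (List Bool) (Nat.bits x.2)) = _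
  rw [encOf_list, encOf_bool]
  have : (encOf Bool) = codeBool := funext encOf_bool
  rw [this]
  rfl

theorem encOf_clause (l : List Literal) :
    encOf (List (Bool × List Bool)) (l.map toB) = codeLits l := by
  rw [encOf_list, codeList_map]
  unfold codeLits
  congr 1
  exact funext encOf_toB

theorem encOf_cnf (L : List (List Literal)) :
    encOf (List (List (Bool × List Bool))) (L.map (fun l => l.map toB)) = codeCNF L := by
  rw [encOf_list, codeList_map]
  unfold codeCNF
  congr 1
  exact funext encOf_clause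

/-- the list of clauses handed to the internal algorithm -/
def inner (L : List (List Literal)) : List (List (Bool × List Bool)) :=
  ded same (L.map (fun l => l.map toB))

/-- the algorithm -/
noncomputable def alg (L : List (List Literal)) : List Literal := (algo (inner L)).map fromB

/-! ### The variables of the result -/

theorem finish_vars {ν : Type} [DecidableEq ν] {J : List (List (Bool × ν))} {V : List ν}
    {G : List (Bool × ν)} (hG : ∀ l ∈ G, l.2 ∈ V) : ∀ l ∈ finish J V G, l.2 ∈ V := by
  intro l hl
  rcases mem_finish hl with h | ⟨m, hm, _, h2⟩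
  · exact hG l h
  · have h3 := (isM_iterate (rest J G) (fedges (rest J G) (free V G)) _).sub m hm
    have h4 := (mem_fedges.1 h3).2.1
    rw [h2]
    exact List.mem_of_mem_filter h4

theorem algo_vars {ν : Type} [DecidableEq ν] [ToData ν] (J : List (List (Bool × ν))) :
    ∀ l ∈ algo J, l.2 ∈ vars J := by
  intro l hl
  unfold algo at hl
  cases h1 : initK J (vars J) with
  | none => rw [h1] at hl; simp at hl
  | some k =>
    rw [h1, Option.elim_some] at hl
    cases h2 : found J (vars J) (k + 1) with
    | none => rw [h2] at hl; simp at hl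
    | some S =>
      rw [h2, Option.elim_some] at hl
      unfold second at hl
      refine List.mem_of_mem_filter (finish_vars ?_ l hl)
      intro x hx
      have h3 := (greedy_sub (nbr J ((vars J).filter (fun w => decide (w ∈ test J S (k + 1)))))
        ((vars J).filter (fun w => decide (w ∈ test J S (k + 1)))) (k + 1)
        ((vars J).filter (fun w => decide (w ∈ test J S (k + 1)))).length).2.2.2
      exact mem_allLits.1 (h3.subset hx)

theorem same_refl {ν : Type} [DecidableEq ν] (C : List (Bool × ν)) : same C C = true :=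
  same_iff.2 fun _ => Iff.rfl

theorem same_symm {ν : Type} [DecidableEq ν] (C D : List (Bool × ν)) : same C D = same D C := by
  rw [Bool.eq_iff_iff, same_iff, same_iff]
  exact ⟨fun h l => (h l).symm, fun h l => (h l).symm⟩

section Transfer

variable (L : List (List Literal))

/-- the set of literals of a translated clause -/
noncomputable def lits (C : List (Bool × List Bool)) : Finset Literal := (C.map fromB).toFinset

theorem mem_inner {C : List (Bool × List Bool)} (hC : C ∈ inner L) :
    ∃ c ∈ L, C = c.map toB := by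
  have := mem_of_mem_ded same_refl hC
  rw [List.mem_map] at this
  obtain ⟨c, hc, rfl⟩ := this
  exact ⟨c, hc, rfl⟩

theorem lits_map (c : List Literal) : lits (c.map toB) = c.toFinset := by
  unfold lits
  rw [List.map_map]
  congr 1
  conv_rhs => rw [← List.map_id c]
  apply List.map_congr_left
  intro x _
  exact fromB_toB x

theorem mem_map_toB {c : List Literal} {x : Literal} : toB x ∈ c.map toB ↔ x ∈ c :=
  List.mem_map_of_injective toB_inj

theorem mem_lits {C : List (Bool × List Bool)} (hC : C ∈ inner L) (x : Literal) :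
    x ∈ lits C ↔ toB x ∈ C := by
  obtain ⟨c, _, rfl⟩ := mem_inner L hC
  rw [lits_map, mem_map_toB, List.mem_toFinset]

theorem lits_mem {C : List (Bool × List Bool)} (hC : C ∈ inner L) : lits C ∈ clauseSet L := by
  obtain ⟨c, hc, rfl⟩ := mem_inner L hC
  rw [lits_map, clauseSet, List.mem_toFinset]
  exact List.mem_map_of_mem hc

theorem exists_inner {D : Finset Literal} (hD : D ∈ clauseSet L) : ∃ C ∈ inner L, lits C = D := by
  rw [clauseSet, List.mem_toFinset, List.mem_map] at hD
  obtain ⟨c, hc, rfl⟩ := hD
  obtain ⟨C, hC, h⟩ := exists_mem_ded same same_refl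
    (List.mem_map_of_mem (f := fun l : List Literal => l.map toB) hc)
  refine ⟨C, hC, ?_⟩
  ext x
  rw [mem_lits L hC, ← same_iff.1 h, mem_map_toB, List.mem_toFinset]

theorem lits_inj {C D : List (Bool × List Bool)} (hC : C ∈ inner L) (hD : D ∈ inner L)
    (h : lits C = lits D) : C = D := by
  refine ded_inj same_refl same_symm hC hD (same_iff.2 ?_)
  have key : ∀ C D : List (Bool × List Bool), C ∈ inner L → D ∈ inner L → lits C = lits D →
      ∀ l, l ∈ C → l ∈ D := by
    intro C D hC hD h l hl
    obtain ⟨c, hc, rfl⟩ := mem_inner L hC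
    rw [List.mem_map] at hl
    obtain ⟨x, hx, rfl⟩ := hl
    rw [← mem_lits L hD, ← h, mem_lits L hC]
    exact List.mem_map_of_mem hx
  exact fun l => ⟨key C D hC hD h l, key D C hD hC h.symm l⟩

theorem card_transfer (p : List (Bool × List Bool) → Prop) (q : Finset Literal → Prop)
    [DecidablePred p] [DecidablePred q] (h : ∀ C ∈ inner L, p C ↔ q (lits C)) :
    ((clauseSet L).filter q).card = ((inner L).toFinset.filter p).card := by
  have h1 : (clauseSet L).filter q = ((inner L).toFinset.filter p).image lits := by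
    ext D
    rw [Finset.mem_filter, Finset.mem_image]
    constructor
    · rintro ⟨hD, hq⟩
      obtain ⟨C, hC, rfl⟩ := exists_inner L hD
      exact ⟨C, Finset.mem_filter.2 ⟨List.mem_toFinset.2 hC, (h C hC).2 hq⟩, rfl⟩
    · rintro ⟨C, hC, rfl⟩
      rw [Finset.mem_filter, List.mem_toFinset] at hC
      exact ⟨lits_mem L hC.1, (h C hC.1).1 hC.2⟩
  rw [h1, Finset.card_image_of_injOn]
  intro C hC D hD hCD
  rw [Finset.mem_coe, Finset.mem_filter, List.mem_toFinset] at hC hD
  exact lits_inj L hC.1 hD.1 hCD

theorem ld_transfer (x : Literal) : ldeg (clauseSet L) x = ld (inner L).toFinset (toB x) := by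
  have h := card_transfer L (fun C => toB x ∈ C) (fun D => x ∈ D)
    (fun C hC => (mem_lits L hC x).symm)
  unfold ldeg ld
  convert h

theorem occ_transfer {C : List (Bool × List Bool)} (hC : C ∈ inner L) (v : ℕ) :
    occ (Nat.bits v) C = true ↔ ∃ x ∈ lits C, x.2 = v := by
  rw [occ_iff]
  constructor
  · rintro ⟨l, hl, h⟩
    obtain ⟨c, hc, rfl⟩ := mem_inner L hC
    rw [List.mem_map] at hl
    obtain ⟨x, hx, rfl⟩ := hl
    exact ⟨x, (mem_lits L hC x).2 (List.mem_map_of_mem hx), bits_inj h⟩
  · rintro ⟨x, hx, rfl⟩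
    exact ⟨toB x, (mem_lits L hC x).1 hx, rfl⟩

theorem Gam_transfer (V : Finset ℕ) :
    (Gam (clauseSet L) V).card = (Ga (inner L).toFinset (V.image Nat.bits)).card := by
  refine card_transfer L (fun C => ∃ w ∈ V.image Nat.bits, occ w C = true)
    (fun D => ∃ x ∈ D, x.2 ∈ V) (fun C hC => ?_)
  constructor
  · rintro ⟨w, hw, h⟩
    rw [Finset.mem_image] at hw
    obtain ⟨v, hv, rfl⟩ := hw
    obtain ⟨x, hx, rfl⟩ := (occ_transfer L hC v).1 h
    exact ⟨x, hx, hv⟩
  · rintro ⟨x, hx, hv⟩
    exact ⟨Nat.bits x.2, Finset.mem_image_of_mem _ hv, (occ_transfer L hC x.2).2 ⟨x, hx, rfl⟩⟩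

theorem vars_transfer : (vars (inner L)).toFinset = (varSet (clauseSet L)).image Nat.bits := by
  ext w
  rw [List.mem_toFinset, mem_vars, Finset.mem_image]
  constructor
  · rintro ⟨C, hC, l, hl, rfl⟩
    obtain ⟨c, hc, rfl⟩ := mem_inner L hC
    have h1 := lits_mem L hC
    rw [List.mem_map] at hl
    obtain ⟨x, hx, rfl⟩ := hl
    refine ⟨x.2, ?_, rfl⟩
    rw [varSet, Finset.mem_biUnion]
    exact ⟨_, h1, Finset.mem_image.2 ⟨x, (mem_lits L hC x).2 (List.mem_map_of_mem hx), rfl⟩⟩
  · rintro ⟨v, hv, rfl⟩
    rw [varSet, Finset.mem_biUnion] at hv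
    obtain ⟨D, hD, hv⟩ := hv
    rw [Finset.mem_image] at hv
    obtain ⟨x, hx, rfl⟩ := hv
    obtain ⟨C, hC, rfl⟩ := exists_inner L hD
    exact ⟨C, hC, toB x, (mem_lits L hC x).1 hx, rfl⟩

theorem mem_algo {l : Bool × List Bool} (hl : l ∈ algo (inner L)) :
    ∃ x : Literal, l = toB x ∧ x.2 ∈ varSet (clauseSet L) := by
  have h1 := algo_vars _ l hl
  rw [← List.mem_toFinset, vars_transfer, Finset.mem_image] at h1
  obtain ⟨v, hv, h2⟩ := h1
  exact ⟨(l.1, v), Prod.ext rfl h2.symm, hv⟩

theorem mem_alg (x : Literal) : x ∈ alg L ↔ toB x ∈ algo (inner L) := by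
  unfold alg
  rw [List.mem_map]
  constructor
  · rintro ⟨l, hl, rfl⟩
    obtain ⟨y, rfl, _⟩ := mem_algo L hl
    rw [fromB_toB]
    exact hl
  · intro h
    exact ⟨toB x, h, fromB_toB x⟩

theorem alg_code : encOf (List (Bool × List Bool)) (algo (inner L)) = codeLits (alg L) := by
  rw [← encOf_clause]
  congr 1
  unfold alg
  rw [List.map_map]
  conv_lhs => rw [← List.map_id (algo (inner L))]
  apply List.map_congr_left
  intro l hl
  obtain ⟨x, rfl, _⟩ := mem_algo L hl
  simp only [id, Function.comp_apply, fromB_toB]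

theorem alg_correct {k m : ℕ} (hF : IsClauseSet (clauseSet L)) (hk : 1 ≤ k)
    (hsur : IsSurplus (clauseSet L) k) (hm : IsMinVarDeg (clauseSet L) m) (hkm : nM k < m) :
    IsAutarky (clauseSet L) (alg L).toFinset ∧ NonTrivial (clauseSet L) (alg L).toFinset := by
  have hnd : (inner L).Nodup := ded_nodup same same_refl _
  have hspec := algo_spec hnd hk (fun C hC v => ?_) ?_ ?_ ?_
  · obtain ⟨h1, h2, h3⟩ := hspec
    refine ⟨⟨?_, ?_⟩, ?_⟩
    · intro x hx hx'
      rw [List.mem_toFinset, mem_alg] at hx hx'
      exact h1 _ hx hx'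
    · rintro D hD ⟨x, hx, hxD⟩
      obtain ⟨C, hC, rfl⟩ := exists_inner L hD
      rw [List.mem_toFinset, mem_alg] at hx
      obtain ⟨l, hl, hlC⟩ := h2 C hC ⟨toB x, hx,
        occ_iff.2 ⟨toB (comp x), (mem_lits L hC _).1 hxD, rfl⟩⟩
      obtain ⟨y, rfl, _⟩ := mem_algo L hl
      exact ⟨y, Finset.mem_inter.2 ⟨(mem_lits L hC y).2 hlC,
        List.mem_toFinset.2 ((mem_alg L y).2 hl)⟩⟩
    · obtain ⟨l, hl, _⟩ := h3
      obtain ⟨⟨e, v⟩, rfl, hv⟩ := mem_algo L hl
      refine ⟨v, hv, ?_⟩
      cases e
      · exact Or.inr (List.mem_toFinset.2 ((mem_alg L _).2 hl))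
      · exact Or.inl (List.mem_toFinset.2 ((mem_alg L _).2 hl))
  · rintro ⟨h1, h2⟩
    obtain ⟨c, hc, rfl⟩ := mem_inner L hC
    rw [List.mem_map] at h1 h2
    obtain ⟨x, hx, hx'⟩ := h1
    obtain ⟨y, hy, hy'⟩ := h2
    have h3 := Prod.mk.inj hx'
    have h4 := Prod.mk.inj hy'
    have h5 := (hF _ (lits_mem L hC)).1 x ((mem_lits L hC x).2 (List.mem_map_of_mem hx))
    apply h5
    have h6 : comp x = y := by
      refine Prod.ext ?_ (bits_inj (h3.2.trans h4.2.symm))
      show (!x.1) = y.1
      rw [h3.1, h4.1]
      rfl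
    rw [h6]
    exact (mem_lits L hC y).2 (List.mem_map_of_mem hy)
  · intro X hX hne
    rw [vars_transfer, Finset.subset_image_iff] at hX
    obtain ⟨V, hV, rfl⟩ := hX
    rw [← Gam_transfer, Finset.card_image_of_injective _ bits_inj]
    have h1 := hsur.2 ⟨V, Finset.image_nonempty.1 hne, hV, rfl⟩
    omega
  · obtain ⟨V, hne, hV, h1⟩ := hsur.1
    refine ⟨V.image Nat.bits, ?_, hne.image _, ?_⟩
    · rw [vars_transfer]
      exact Finset.image_subset_image hV
    · rw [← Gam_transfer, Finset.card_image_of_injective _ bits_inj]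
      omega
  · intro w hw
    rw [← List.mem_toFinset, vars_transfer, Finset.mem_image] at hw
    obtain ⟨v, hv, rfl⟩ := hw
    have h1 := hm.2 ⟨v, hv, rfl⟩
    have h2 : vdeg (clauseSet L) v = ld (inner L).toFinset (true, Nat.bits v) +
        ld (inner L).toFinset (false, Nat.bits v) := by
      unfold vdeg
      rw [ld_transfer, ld_transfer]
      rfl
    omega

theorem alg_scomp : SComp codeCNF codeLits alg := by
  have h := (pt_main (ν := List Bool)).scomp
  refine SComp.cast h fun L => ?_
  have h2 := alg_code L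
  unfold inner at h2
  refine ⟨L.map (fun l => l.map toB), encOf_cnf L, ?_⟩
  rw [← h2]

end Transfer

/-- There is a polynomial-time algorithm which, given any clause-set `F` with surplus `k ≥ 1` and
min-var-degree larger than `nM k`, outputs a non-trivial autarky for `F`. -/
theorem result : ∃ f : List (List Literal) → List Literal,
    Nonempty (Turing.TM2ComputableInPolyTime codeCNF codeLits f) ∧
    ∀ (L : List (List Literal)) (k m : ℕ), IsClauseSet (clauseSet L) →
      (varSet (clauseSet L)).Nonempty → 1 ≤ k → IsSurplus (clauseSet L) k →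
      IsMinVarDeg (clauseSet L) m → nM k < m →
      IsAutarky (clauseSet L) (f L).toFinset ∧ NonTrivial (clauseSet L) (f L).toFinset := by
  refine ⟨alg, ?_, fun L k m hF _ hk hs hm hkm => alg_correct L hF hk hs hm hkm⟩
  exact alg_scomp.computable

end Pool.Agent.Results.MP_15fd45_lc.AutarkyInPolyTime
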